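import Mathlib
import Pool.Agent.R350.HI

/-!
# Gel'fond's conjecture: the dimension of the set of bad combinations

Let `ℚ̄` be the field of algebraic numbers and `LogForms` the space of all linear combinations, with
algebraic coefficients, of `1` and logarithms of algebraic numbers.  For `ℚ`-linearly independent
algebraic numbers `α_1, …, α_s` let `E` be the `ℚ̄`-space spanned by `1` and by the coefficients `ℓ_μ`
of all relations

  `∑_μ e ^ (μ_1 α_1 + ⋯ + μ_s α_s) ℓ_μ = 0`, `0 ≤ μ_i ≤ D`, `ℓ_μ ∈ LogForms`.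

Its dimension is bounded in terms of `s` and `D`.  Let
`c = ((D + 3) (D + 2) ^ n (((D + 1) ^ s + 1) ^ 3 + 1)) ^ 2` and let `λ_1, …, λ_N` and `z_1, …, z_n` be
ARBITRARY elements of `LogForms` such that `1, λ_1, …, λ_N` are linearly independent over `ℚ̄`.  Call
an `n × N` matrix `b` of algebraic numbers good if for the tuple `y_i = z_i + ∑_k b_{i k} λ_k`
every relation `P (e ^ α_1, …, e ^ α_s, y_1, …, y_n, l_1, …, l_t) = 0`, with algebraic coefficients, of
degree at most `D` in each of the first `s + n` variables and of degree at most `1` in ARBITRARY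
elements `l_j` of `LogForms` (any number of them, chosen after `y`) which are `ℚ̄`-linearly
independent modulo `E` and the `y_i`, is trivial.

Thus the relations of bounded degree between these numbers which are linear in the arbitrary
logarithms are consequences of those which do not contain generic logarithms.

1. The set of the matrices which are not good has dimension at most `(n - 1) N + c`: the values of any
   `S > (n - 1) N + c` linear forms at the points of this set satisfy a nontrivial polynomial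
   relation, whose degree is bounded in terms of `s`, `n`, `D`, `N` and `S` only.
2. At most `C H ^ ((n - 1) N + c)` of these matrices have integral entries of absolute value at most
   `H`, where `C` depends only on `s`, `n`, `D` and `N`, and neither on `α` nor on the `λ_k`.

The proof (`Pool.Agent.R350`): an ultrafilter of matrices such that the linear forms are
algebraically independent gives an ultrapower of `ℂ` with derivations which preserve the space spanned
by `LogForms`.  A relation of degree `D` is reduced to linear relations with many linearly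
independent columns by means of these derivations, and these are excluded by the theorem of D. Roy
(strong six exponentials).  The bound for the degree is obtained by a second ultraproduct.
-/

set_option autoImplicit false

namespace Pool.Agent.Results.MP_c82530_nt.BadCombinations

open Module MvPolynomial

/-- the linear combinations, with algebraic coefficients, of `1` and logarithms of algebraic numbers -/
noncomputable def LogForms : Submodule (algebraicClosure ℚ ℂ) ℂ :=
  Submodule.span (algebraicClosure ℚ ℂ) ({1} ∪ {z : ℂ | IsAlgebraic ℚ (Complex.exp z)})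

/-- the space spanned by `1` and the coefficients of all relations
`∑_μ e ^ (μ_1 α_1 + ⋯ + μ_s α_s) ℓ_μ = 0`, `0 ≤ μ_i ≤ D`, `ℓ_μ ∈ LogForms` -/
noncomputable def RelCoeffs {s : ℕ} (D : ℕ) (α : Fin s → ℂ) :
    Submodule (algebraicClosure ℚ ℂ) ℂ :=
  Submodule.span (algebraicClosure ℚ ℂ) ({1} ∪ {z : ℂ | ∃ ℓ : (Fin s → Fin (D + 1)) → ℂ,
    (∀ μ, ℓ μ ∈ LogForms) ∧ ∑ μ, Complex.exp (∑ i, (μ i : ℕ) * α i) * ℓ μ = 0 ∧ ∃ μ, z = ℓ μ})

/-- `y` is independent modulo `RelCoeffs D α`, and the numbers `e ^ α_i`, `y_i` have no relation of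
degree at most `D` which is linear in elements of `LogForms` independent modulo `RelCoeffs D α` and
`y` -/
def NoRelation {s n : ℕ} (D : ℕ) (α : Fin s → ℂ) (y : Fin n → ℂ) : Prop :=
  (∀ c : Fin n → algebraicClosure ℚ ℂ, ∑ i, c i • y i ∈ RelCoeffs D α → c = 0) ∧
  ∀ (t : ℕ) (l : Fin t → ℂ), (∀ j, l j ∈ LogForms) →
    (∀ c : Fin t → algebraicClosure ℚ ℂ, ∑ j, c j • l j ∈ RelCoeffs D α ⊔
      Submodule.span (algebraicClosure ℚ ℂ) (Set.range y) → c = 0) →
    ∀ P : MvPolynomial (Fin s ⊕ (Fin n ⊕ Fin t)) (algebraicClosure ℚ ℂ),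
      (∀ i, P.degreeOf (Sum.inl i) ≤ D) →
      (∀ i, P.degreeOf (Sum.inr (Sum.inl i)) ≤ D) →
      (∀ β ∈ P.support, ∑ j, β (Sum.inr (Sum.inr j)) ≤ 1) →
      aeval (Sum.elim (fun i => Complex.exp (α i)) (Sum.elim y l)) P = 0 → P = 0

theorem noRelation_of {s n D : ℕ} {α : Fin s → ℂ} {y : Fin n → ℂ}
    (h : Pool.Agent.R350.NoRelE D α y) : NoRelation D α y := h

/-- **Main result.** -/
theorem result (s n D N : ℕ) :
    (∀ S : ℕ, (n - 1) * N + ((D + 3) * (D + 2) ^ n * (((D + 1) ^ s + 1) ^ 3 + 1)) ^ 2 < S →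
      ∃ e : ℕ, ∀ α : Fin s → ℂ, (∀ i, IsAlgebraic ℚ (α i)) → LinearIndependent ℚ α →
      ∀ z : Fin n → ℂ, (∀ i, z i ∈ LogForms) → ∀ l : Fin N → ℂ, (∀ k, l k ∈ LogForms) →
      LinearIndependent (algebraicClosure ℚ ℂ) (fun o : Option (Fin N) => o.elim 1 l) →
      ∀ f : Fin S → Fin n × Fin N → algebraicClosure ℚ ℂ,
      ∃ G : MvPolynomial (Fin S) (algebraicClosure ℚ ℂ), G ≠ 0 ∧ G.totalDegree ≤ e ∧
        ∀ b : Fin n × Fin N → algebraicClosure ℚ ℂ,
          ¬ NoRelation D α (fun i => z i + ∑ k, b (i, k) • l k) →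
          eval (fun q => ∑ x, f q x * b x) G = 0) ∧
    ∃ C : ℕ, ∀ α : Fin s → ℂ, (∀ i, IsAlgebraic ℚ (α i)) → LinearIndependent ℚ α →
      Module.Finite (algebraicClosure ℚ ℂ) (RelCoeffs D α) ∧
      finrank (algebraicClosure ℚ ℂ) (RelCoeffs D α) ≤ ((D + 1) ^ s + 1) ^ 3 + 1 ∧
      ∀ z : Fin n → ℂ, (∀ i, z i ∈ LogForms) → ∀ l : Fin N → ℂ, (∀ k, l k ∈ LogForms) →
      LinearIndependent (algebraicClosure ℚ ℂ) (fun o : Option (Fin N) => o.elim 1 l) →
      ∀ H : ℕ, 1 ≤ H → Set.ncard {a : Fin n → Fin N → ℤ | (∀ i k, |a i k| ≤ H) ∧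
        ¬ NoRelation D α (fun i => z i + ∑ k, (a i k : ℂ) * l k)} ≤
        C * H ^ ((n - 1) * N + ((D + 3) * (D + 2) ^ n * (((D + 1) ^ s + 1) ^ 3 + 1)) ^ 2) := by
  rw [← Pool.Agent.R350.bigN_eq]
  refine ⟨fun S hS => ?_, ?_⟩
  · obtain ⟨e, he⟩ := Pool.Agent.R350.norel_dim (algebraicClosure ℚ ℂ) ℂ 0 D n ((D + 1) ^ s) N S hS
    refine ⟨e, fun α hα hαi z hz l hl hli f => ?_⟩
    obtain ⟨W, hWf, hWr, hE, hmain⟩ := Pool.Agent.R350.exp_setup D α hα hαi
    obtain ⟨G, h1, h2, h3⟩ := he Pool.Agent.H301R2.SSE.Lt Pool.Agent.R350.setup_complex.hyp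
      Pool.Agent.R350.setup_complex.one W hWf hWr z hz l hl hli f
    refine ⟨G, h1, h2, fun b hb => ?_⟩
    by_contra h
    exact hb (noRelation_of (hmain n _ (h3 b h)))
  · obtain ⟨C, hC⟩ := Pool.Agent.R350.norel_count (algebraicClosure ℚ ℂ) ℂ 0 D n ((D + 1) ^ s) N
    refine ⟨C, fun α hα hαi => ?_⟩
    obtain ⟨W, hWf, hWr, hE, hmain⟩ := Pool.Agent.R350.exp_setup D α hα hαi
    obtain ⟨h1, h2⟩ := Pool.Agent.R350.relC_bound D α hα hαi
    refine ⟨h1, h2, fun z hz l hl hli H hH => ?_⟩
    refine le_trans (Set.ncard_le_ncard ?_ ?_) (hC Pool.Agent.H301R2.SSE.Lt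
      Pool.Agent.R350.setup_complex.hyp Pool.Agent.R350.setup_complex.one W hWf hWr z hz l hl
      hli H hH)
    · rintro a ⟨ha1, ha2⟩
      refine ⟨ha1, fun h => ha2 (noRelation_of (hmain n _ ?_))⟩
      have he : (fun i => z i + ∑ k, (a i k : ℂ) * l k) =
          fun i => z i + ∑ k, (a i k : algebraicClosure ℚ ℂ) • l k := by
        funext i
        congr 1
      rw [he]
      exact h
    · have h1 : ((Fintype.piFinset fun _ : Fin n => Fintype.piFinset fun _ : Fin N =>
          Finset.Icc (-(H : ℤ)) H : Finset (Fin n → Fin N → ℤ)) :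
          Set (Fin n → Fin N → ℤ)).Finite := Finset.finite_toSet _
      refine h1.subset fun A hA => ?_
      rw [Finset.mem_coe, Fintype.mem_piFinset]
      intro i
      rw [Fintype.mem_piFinset]
      intro j
      rw [Finset.mem_Icc, ← abs_le]
      exact hA.1 i j

end Pool.Agent.Results.MP_c82530_nt.BadCombinations
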