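import Mathlib
import Pool.Agent.R351.GD.Multi
import Pool.Agent.H297R2.ThmJs

/-!
# Gel'fond's conjecture in growing degree in short windows around an algebraic number: at most `l + 2` exceptions

The numbers `e^α_1, …, e^α_l` (`α_i` algebraic, linearly independent over `ℚ`) and logarithms of the algebraic numbers
`ξ + β_i` near an algebraic number `ξ` satisfy no relation of degree at most `δ` over any number field of degree at most
`δ`, for all distinct `β_1, …, β_r` of degree at most `d` and height at most `H` outside a set of at most `l + 2` numbers, if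
`(H + 2) ^ ((δ + 2) ^ C) ≤ |ξ|`. Here `C` depends only on `l`, `r`, `d` and on the bounds `m`, `A` for the degree of `ξ` and
for the height `|ξ| ^ A` of `ξ`; it does not depend on the numbers `α_i` and on `δ`.

The starting file `AlgebraicWindows` is this statement for fixed degrees, with `(H + 2) ^ E ≤ |ξ|` and without
information on how `E` depends on the degrees. Here the degrees may grow with `ξ`: for
`H + 2 ≤ exp ((log |ξ|) ^ (1 / 2))` all `δ ≤ (log |ξ|) ^ (1 / (2 C)) - 2` are admitted.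

The proof: Siegel's method for the functions `log (1 + β x)` with unknown constants, with an exponent which is
polynomial in the degrees (`Pool.Agent.R351.GD.windowP_exp`), and the theorem of Lindemann and Weierstrass.
-/

set_option autoImplicit false

namespace Pool.Agent.Results.MP_c82530_nt.GrowingDegreeWindows

open Pool.Agent.R351.GD

/-- **Main result.** -/
theorem result (l r d m A : ℕ) : ∃ C : ℕ, ∀ (δ H : ℕ) (ξ : ℂ), ((H : ℝ) + 2) ^ ((δ + 2) ^ C) ≤ ‖ξ‖ →
    (∃ p : Polynomial ℤ, p ≠ 0 ∧ p.natDegree ≤ m ∧ (∀ j, |(p.coeff j : ℝ)| ≤ ‖ξ‖ ^ A) ∧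
      Polynomial.aeval ξ p = 0) →
    ∀ α : Fin l → ℂ, (∀ i, IsAlgebraic ℚ (α i)) → LinearIndependent ℚ α →
    ∃ S : Finset ℂ, S.card ≤ l + 2 ∧ ∀ β : Fin r → ℂ, Function.Injective β → (∀ i, β i ∉ S ∧ β i ≠ 0) →
      (∀ i, ∃ p : Polynomial ℤ, p ≠ 0 ∧ p.natDegree ≤ d ∧ (∀ j, |p.coeff j| ≤ (H : ℤ)) ∧
        Polynomial.aeval (β i) p = 0) →
      ∀ x : Fin r → ℂ, (∀ i, Complex.exp (x i) = ξ + β i) →
      ∀ K : IntermediateField ℚ ℂ, FiniteDimensional ℚ K → Module.finrank ℚ K ≤ δ →
      ∀ P : MvPolynomial (Fin l ⊕ Fin r) K, P ≠ 0 → P.totalDegree ≤ δ →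
        MvPolynomial.aeval (Sum.elim (fun i => Complex.exp (α i)) x) P ≠ 0 := by
  obtain ⟨E, ⟨C, hC⟩, -, hE⟩ := multi_window l r d m A
  refine ⟨C, fun δ H ξ hξ hξp α hα hli => ?_⟩
  obtain ⟨S, hS, h⟩ := hE (Fin l) (by rw [Fintype.card_fin]) (fun i => Complex.exp (α i)) δ H ξ
    ((pow_le_pow_right₀ (by linarith [(Nat.cast_nonneg H : (0 : ℝ) ≤ H)]) (hC δ)).trans hξ) hξp
  refine ⟨S, hS, fun β hinj hβ hβa x hx K hK hKd P hP0 hPd hP => hP0 ?_⟩
  have h1 := h β hinj (fun i => ⟨(hβ i).1, (hβ i).2, hβa i⟩) x hx K hK hKd P hPd hP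
  exact inj_subK _ (indep_field _ (Pool.Agent.H297R2.exp_algebraicIndependent α hα hli) K hK) P h1

end Pool.Agent.Results.MP_c82530_nt.GrowingDegreeWindows
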