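import Mathlib
import Pool.Agent.R350.HI

/-!
# Gel'fond's conjecture: arbitrary exponentials, logarithms of integers and arbitrary logarithms

Let `ℚ̄` be the field of algebraic numbers and `LogForms` the space of all linear combinations, with
algebraic coefficients, of `1` and logarithms of algebraic numbers.  For `ℚ`-linearly independent
algebraic numbers `α_1, …, α_s` let `E` be the `ℚ̄`-space spanned by `1` and by the coefficients `ℓ_μ`
of all relations

  `∑_μ e ^ (μ_1 α_1 + ⋯ + μ_s α_s) ℓ_μ = 0`, `0 ≤ μ_i ≤ D`, `ℓ_μ ∈ LogForms`.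

Its dimension is bounded in terms of `s` and `D`.  For the tuple `y` of the logarithms of all but
`C (log log x) ^ C / log x * x ^ n` of the `n`-tuples of positive integers up to `x`
every relation `P (e ^ α_1, …, e ^ α_s, y_1, …, y_n, l_1, …, l_t) = 0`, with algebraic coefficients, of
degree at most `D` in each of the first `s + n` variables and of degree at most `1` in ARBITRARY
elements `l_j` of `LogForms` (any number of them, chosen after `y`) which are `ℚ̄`-linearly
independent modulo `E` and the `y_i`, is trivial.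

Thus the relations of bounded degree between these numbers which are linear in the arbitrary
logarithms are consequences of those which do not contain generic logarithms.

The proof (`Pool.Agent.R350`): large families of logarithms contain elements which are generic for
relations of degree `D` with coefficients in `W L`, `W` a given finite dimensional space and
`L = LogForms`; here `W` is the space spanned by the monomials in the `e ^ α_i`.  Relations between
the `e ^ α_i` are excluded by the theorem of Lindemann and Weierstrass.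
-/

set_option autoImplicit false

namespace Pool.Agent.Results.MP_c82530_nt.LinearInArbitraryLogs

open Module MvPolynomial

/-- the linear combinations, with algebraic coefficients, of `1` and logarithms of algebraic numbers -/
noncomputable def LogForms : Submodule (algebraicClosure ℚ ℂ) ℂ :=
  Submodule.span (algebraicClosure ℚ ℂ) ({1} ∪ {z : ℂ | IsAlgebraic ℚ (Complex.exp z)})

/-- the space spanned by `1` and the coefficients of all relations
`∑_μ e ^ (μ_1 α_1 + ⋯ + μ_s α_s) ℓ_μ = 0`, `0 ≤ μ_i ≤ D`, `ℓ_μ ∈ LogForms` -/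
noncomputable def RelCoeffs {s : ℕ} (D : ℕ) (α : Fin s → ℂ) :
    Submodule (algebraicClosure ℚ ℂ) ℂ :=
  Submodule.span (algebraicClosure ℚ ℂ) ({1} ∪ {z : ℂ | ∃ ℓ : (Fin s → Fin (D + 1)) → ℂ,
    (∀ μ, ℓ μ ∈ LogForms) ∧ ∑ μ, Complex.exp (∑ i, (μ i : ℕ) * α i) * ℓ μ = 0 ∧ ∃ μ, z = ℓ μ})

/-- `y` is independent modulo `RelCoeffs D α`, and the numbers `e ^ α_i`, `y_i` have no relation of
degree at most `D` which is linear in elements of `LogForms` independent modulo `RelCoeffs D α` and
`y` -/
def NoRelation {s n : ℕ} (D : ℕ) (α : Fin s → ℂ) (y : Fin n → ℂ) : Prop :=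
  (∀ c : Fin n → algebraicClosure ℚ ℂ, ∑ i, c i • y i ∈ RelCoeffs D α → c = 0) ∧
  ∀ (t : ℕ) (l : Fin t → ℂ), (∀ j, l j ∈ LogForms) →
    (∀ c : Fin t → algebraicClosure ℚ ℂ, ∑ j, c j • l j ∈ RelCoeffs D α ⊔
      Submodule.span (algebraicClosure ℚ ℂ) (Set.range y) → c = 0) →
    ∀ P : MvPolynomial (Fin s ⊕ (Fin n ⊕ Fin t)) (algebraicClosure ℚ ℂ),
      (∀ i, P.degreeOf (Sum.inl i) ≤ D) →
      (∀ i, P.degreeOf (Sum.inr (Sum.inl i)) ≤ D) →
      (∀ β ∈ P.support, ∑ j, β (Sum.inr (Sum.inr j)) ≤ 1) →
      aeval (Sum.elim (fun i => Complex.exp (α i)) (Sum.elim y l)) P = 0 → P = 0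

theorem noRelation_of {s n D : ℕ} {α : Fin s → ℂ} {y : Fin n → ℂ}
    (h : Pool.Agent.R350.NoRelE D α y) : NoRelation D α y := h

open Classical in
/-- **Main result.** -/
theorem result (s n D : ℕ) : ∃ C : ℕ, ∀ α : Fin s → ℂ,
    (∀ i, IsAlgebraic ℚ (α i)) → LinearIndependent ℚ α →
    Module.Finite (algebraicClosure ℚ ℂ) (RelCoeffs D α) ∧
    finrank (algebraicClosure ℚ ℂ) (RelCoeffs D α) ≤ C ∧
    ∀ x : ℕ, 16 ≤ x →
      (((Fintype.piFinset fun _ : Fin n => Finset.Icc 1 x).filter fun a =>
        ¬ NoRelation D α (fun i => (Real.log (a i) : ℂ))).card : ℝ) ≤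
        C * Real.log (Real.log x) ^ C / Real.log x * (x : ℝ) ^ n := by
  obtain ⟨C, hC⟩ := Pool.Agent.R350.rate_lin D n ((D + 1) ^ s) 0
  refine ⟨C + (((D + 1) ^ s + 1) ^ 3 + 1), fun α hα hαi => ?_⟩
  obtain ⟨W, hWf, hWr, hE, hmain⟩ := Pool.Agent.R350.exp_setup D α hα hαi
  obtain ⟨h1, h2⟩ := Pool.Agent.R350.relC_bound D α hα hαi
  refine ⟨h1, h2.trans (Nat.le_add_left _ _), fun x hx => ?_⟩
  obtain ⟨-, -, -, -, h5⟩ := hC x hx (algebraicClosure ℚ ℂ) ℂ _ _
    Pool.Agent.R350.setup_complex W hWf hWr
  refine (h5 _ (fun a ha => (Finset.mem_filter.1 ha).1) ?_).trans ?_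
  · intro a ha hgood
    exact (Finset.mem_filter.1 ha).2 (noRelation_of (hmain n _ hgood))
  · exact mul_le_mul_of_nonneg_right (Pool.Agent.TH681.QC.er_mono (by omega) hx)
      (by positivity)

end Pool.Agent.Results.MP_c82530_nt.LinearInArbitraryLogs
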