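import Mathlib
import Pool.Agent.R350.GV
import Pool.Agent.R350.HI

/-!
# Gel'fond's conjecture: arbitrary exponentials, sums of few logarithms and arbitrary logarithms

Let `ℚ̄` be the field of algebraic numbers and `LogForms` the space of all linear combinations, with
algebraic coefficients, of `1` and logarithms of algebraic numbers.  For `ℚ`-linearly independent
algebraic numbers `α_1, …, α_s` let `E` be the `ℚ̄`-space spanned by `1` and by the coefficients `ℓ_μ`
of all relations

  `∑_μ e ^ (μ_1 α_1 + ⋯ + μ_s α_s) ℓ_μ = 0`, `0 ≤ μ_i ≤ D`, `ℓ_μ ∈ LogForms`.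

Its dimension is bounded in terms of `s` and `D`.  Let `D ≥ 1` and `r = D ^ 2 + 4 D - 2` (so
`r = 3` for `D = 1`).  Let `λ_1, …, λ_N` be ARBITRARY `ℚ`-linearly independent logarithms of algebraic
numbers and let `c (i, j)` be nonzero rational numbers.  For the sums of `r` logarithms
`y_i = ∑_j c (i, j) λ_{f (i, j)}` and all but `C N ^ (n r - δ)` of the `N ^ (n r)` functions `f`
every relation `P (e ^ α_1, …, e ^ α_s, y_1, …, y_n, l_1, …, l_t) = 0`, with algebraic coefficients, of
degree at most `D` in each of the first `s + n` variables and of degree at most `1` in ARBITRARY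
elements `l_j` of `LogForms` (any number of them, chosen after `y`) which are `ℚ̄`-linearly
independent modulo `E` and the `y_i`, is trivial.

Thus the relations of bounded degree between these numbers which are linear in the arbitrary
logarithms are consequences of those which do not contain generic logarithms.

For `s = 0` this is a theorem on the algebraic independence of logarithms alone (then `E = ℚ̄`).

The proof (`Pool.Agent.R350`): large families of logarithms contain sums of `r` elements which are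
generic for relations of degree `D` with coefficients in `W L`, `W` a given finite dimensional space
and `L = LogForms`; here `W` is the space spanned by the monomials in the `e ^ α_i`.  Relations between
the `e ^ α_i` are excluded by the theorem of Lindemann and Weierstrass.
-/

set_option autoImplicit false

namespace Pool.Agent.Results.MP_c82530_nt.SumsOfFewLogs

open Module MvPolynomial

/-- the linear combinations, with algebraic coefficients, of `1` and logarithms of algebraic numbers -/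
noncomputable def LogForms : Submodule (algebraicClosure ℚ ℂ) ℂ :=
  Submodule.span (algebraicClosure ℚ ℂ) ({1} ∪ {z : ℂ | IsAlgebraic ℚ (Complex.exp z)})

/-- the space spanned by `1` and the coefficients of all relations
`∑_μ e ^ (μ_1 α_1 + ⋯ + μ_s α_s) ℓ_μ = 0`, `0 ≤ μ_i ≤ D`, `ℓ_μ ∈ LogForms` -/
noncomputable def RelCoeffs {s : ℕ} (D : ℕ) (α : Fin s → ℂ) :
    Submodule (algebraicClosure ℚ ℂ) ℂ :=
  Submodule.span (algebraicClosure ℚ ℂ) ({1} ∪ {z : ℂ | ∃ ℓ : (Fin s → Fin (D + 1)) → ℂ,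
    (∀ μ, ℓ μ ∈ LogForms) ∧ ∑ μ, Complex.exp (∑ i, (μ i : ℕ) * α i) * ℓ μ = 0 ∧ ∃ μ, z = ℓ μ})

/-- `y` is independent modulo `RelCoeffs D α`, and the numbers `e ^ α_i`, `y_i` have no relation of
degree at most `D` which is linear in elements of `LogForms` independent modulo `RelCoeffs D α` and
`y` -/
def NoRelation {s n : ℕ} (D : ℕ) (α : Fin s → ℂ) (y : Fin n → ℂ) : Prop :=
  (∀ c : Fin n → algebraicClosure ℚ ℂ, ∑ i, c i • y i ∈ RelCoeffs D α → c = 0) ∧
  ∀ (t : ℕ) (l : Fin t → ℂ), (∀ j, l j ∈ LogForms) →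
    (∀ c : Fin t → algebraicClosure ℚ ℂ, ∑ j, c j • l j ∈ RelCoeffs D α ⊔
      Submodule.span (algebraicClosure ℚ ℂ) (Set.range y) → c = 0) →
    ∀ P : MvPolynomial (Fin s ⊕ (Fin n ⊕ Fin t)) (algebraicClosure ℚ ℂ),
      (∀ i, P.degreeOf (Sum.inl i) ≤ D) →
      (∀ i, P.degreeOf (Sum.inr (Sum.inl i)) ≤ D) →
      (∀ β ∈ P.support, ∑ j, β (Sum.inr (Sum.inr j)) ≤ 1) →
      aeval (Sum.elim (fun i => Complex.exp (α i)) (Sum.elim y l)) P = 0 → P = 0

theorem noRelation_of {s n D : ℕ} {α : Fin s → ℂ} {y : Fin n → ℂ}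
    (h : Pool.Agent.R350.NoRelE D α y) : NoRelation D α y := h

open Classical in
/-- **Main result.** -/
theorem result (s n D : ℕ) (hD : 1 ≤ D) : ∃ δ : ℝ, 0 < δ ∧ ∃ C : ℕ, ∀ α : Fin s → ℂ,
    (∀ i, IsAlgebraic ℚ (α i)) → LinearIndependent ℚ α →
    Module.Finite (algebraicClosure ℚ ℂ) (RelCoeffs D α) ∧
    finrank (algebraicClosure ℚ ℂ) (RelCoeffs D α) ≤ C ∧
    ∀ (N : ℕ) (l : Fin N → ℂ), (∀ i, IsAlgebraic ℚ (Complex.exp (l i))) →
      LinearIndependent ℚ l →
      ∀ c : Fin n → Fin (D ^ 2 + 4 * D - 2) → ℚ, (∀ i j, c i j ≠ 0) →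
      ((Finset.univ.filter fun f : Fin n → Fin (D ^ 2 + 4 * D - 2) → Fin N =>
        ¬ NoRelation D α (fun i => ∑ j, (c i j : ℂ) * l (f i j))).card : ℝ) ≤
        C * (N : ℝ) ^ (((n * (D ^ 2 + 4 * D - 2) : ℕ) : ℝ) - δ) := by
  obtain ⟨E, rfl⟩ : ∃ E, D = E + 1 := ⟨D - 1, by omega⟩
  have hr : (E + 1) ^ 2 + 4 * (E + 1) - 2 = Pool.Agent.R350.nS E := by
    unfold Pool.Agent.R350.nS
    have : (E + 1) ^ 2 + 4 * (E + 1) = E * E + 6 * E + 3 + 2 := by ring
    rw [this, Nat.add_sub_cancel]
  rw [hr]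
  obtain ⟨δ, hδ, K, hK, hfew⟩ := Pool.Agent.R350.few_lin E n ((E + 1 + 1) ^ s) 0
  refine ⟨δ, hδ, ⌈K⌉₊ + (((E + 1 + 1) ^ s + 1) ^ 3 + 1), fun α hα hαi => ?_⟩
  obtain ⟨W, hWf, hWr, hE, hmain⟩ := Pool.Agent.R350.exp_setup (E + 1) α hα hαi
  obtain ⟨h1, h2⟩ := Pool.Agent.R350.relC_bound (E + 1) α hα hαi
  refine ⟨h1, h2.trans (Nat.le_add_left _ _), fun N l hl hli c hc => ?_⟩
  refine (Pool.Agent.R350.npow_final (N := N) (a := n * Pool.Agent.R350.nS E) (K := K) hδ hK
    ?_).trans ?_
  rotate_left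
  · gcongr
    refine (Nat.le_ceil K).trans ?_
    exact_mod_cast (Nat.le_add_right _ _)
  refine hfew (algebraicClosure ℚ ℂ) ℂ Pool.Agent.H301R2.SSE.Lt
    Pool.Agent.R350.setup_complex.hyp Pool.Agent.R350.setup_complex.one W hWf hWr 0
    (fun _ => Submodule.zero_mem _) N l (fun i => Pool.Agent.H301R2.SSE.Lt_log (hl i))
    (Pool.Agent.R350.li_complex _ hl hli)
    (fun i j => algebraMap ℚ (algebraicClosure ℚ ℂ) (c i j))
    (fun i j => (map_ne_zero _).2 (hc i j)) _ ?_
  intro f hf hgood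
  apply (Finset.mem_filter.1 hf).2
  have he : (fun a => (0 : Fin n → ℂ) a + ∑ j, (algebraMap ℚ (algebraicClosure ℚ ℂ) (c a j)) •
      l (f a j)) = fun i => ∑ j, (c i j : ℂ) * l (f i j) := by
    funext i
    rw [Pi.zero_apply, zero_add]
    refine Finset.sum_congr rfl fun j _ => ?_
    rw [Algebra.smul_def]
    rfl
  rw [he] at hgood
  exact noRelation_of (hmain n _ hgood)

end Pool.Agent.Results.MP_c82530_nt.SumsOfFewLogs
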